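import Mathlib

set_option autoImplicit false

namespace Pool.Agent.H.MP_2b96c2_al

abbrev Z2 := ℤ × ℤ
abbrev R := AddMonoidAlgebra ℤ Z2

noncomputable def e {Q : Type} (u : Q) : AddMonoidAlgebra ℤ Q := AddMonoidAlgebra.single u 1

section
variable {Q : Type} [AddCommGroup Q]

theorem e_add (u v : Q) : e (u + v) = e u * e v := by
  simp [e, AddMonoidAlgebra.single_mul_single]

@[simp] theorem e_zero : e (0 : Q) = 1 := rfl

theorem e_neg_mul (u : Q) : e (-u) * e u = 1 := by rw [← e_add, neg_add_cancel, e_zero]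
theorem e_mul_neg (u : Q) : e u * e (-u) = 1 := by rw [← e_add, add_neg_cancel, e_zero]

theorem e_sub_one_ne {u : Q} (hu : u ≠ 0) : e u - 1 ≠ 0 := by
  intro h
  have h1 : e u = e (0 : Q) := by rw [e_zero]; exact sub_eq_zero.1 h
  exact hu (AddMonoidAlgebra.single_left_injective one_ne_zero h1)

theorem e_dvd (v : Q) (n : ℤ) : (e v - 1) ∣ (e (n • v) - 1) := by
  induction n using Int.induction_on with
  | zero => simp
  | succ n ih =>
    have : e (((n : ℤ) + 1) • v) - 1 = e v * (e ((n : ℤ) • v) - 1) + (e v - 1) := by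
      rw [add_smul, one_smul, e_add]; ring
    rw [this]; exact dvd_add (Dvd.dvd.mul_left ih _) dvd_rfl
  | pred n ih =>
    have h := e_neg_mul v
    have : e ((-(n : ℤ) - 1) • v) - 1 = e (-v) * (e ((-(n : ℤ)) • v) - 1) - e (-v) * (e v - 1) := by
      rw [sub_smul, one_smul, sub_eq_add_neg (-(n : ℤ) • v), e_add]
      linear_combination h
    rw [this]; exact dvd_sub (Dvd.dvd.mul_left ih _) (Dvd.dvd.mul_left dvd_rfl _)

end

@[ext] structure Aff where
  y : R
  u : Z2

noncomputable instance : Mul Aff := ⟨fun x z => ⟨x.y + e x.u * z.y, x.u + z.u⟩⟩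
noncomputable instance : One Aff := ⟨⟨0, 0⟩⟩
noncomputable instance : Inv Aff := ⟨fun x => ⟨-(e (-x.u) * x.y), -x.u⟩⟩

@[simp] theorem mul_y (x z : Aff) : (x * z).y = x.y + e x.u * z.y := rfl
@[simp] theorem mul_u (x z : Aff) : (x * z).u = x.u + z.u := rfl
@[simp] theorem one_y : (1 : Aff).y = 0 := rfl
@[simp] theorem one_u : (1 : Aff).u = 0 := rfl
@[simp] theorem inv_y (x : Aff) : (x⁻¹).y = -(e (-x.u) * x.y) := rfl
@[simp] theorem inv_u (x : Aff) : (x⁻¹).u = -x.u := rfl

noncomputable instance : Group Aff := Group.ofLeftAxioms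
  (fun a b c => by
    refine Aff.ext ?_ ?_
    · simp only [mul_y, mul_u, e_add]; ring
    · simp only [mul_u, add_assoc])
  (fun a => by refine Aff.ext ?_ ?_ <;> simp)
  (fun a => by refine Aff.ext ?_ ?_ <;> simp)

theorem comm_y (x z : Aff) (hz : z.u = 0) : (x * z * x⁻¹ * z⁻¹).y = (e x.u - 1) * z.y := by
  have := e_mul_neg x.u
  simp only [mul_y, mul_u, inv_y, inv_u, hz, add_zero, neg_zero, e_zero, add_neg_cancel]
  linear_combination (-x.y) * this

theorem conj_y (x z : Aff) (hz : z.u = 0) : (x * z * x⁻¹).y = e x.u * z.y := by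
  have := e_mul_neg x.u
  simp only [mul_y, mul_u, inv_y, hz, add_zero]
  linear_combination (-x.y) * this

theorem commute_of_u (x z : Aff) (hx : x.u = 0) (hz : z.u = 0) : x * z = z * x := by
  refine Aff.ext ?_ ?_
  · simp [hx, hz, add_comm]
  · simp [hx, hz]

noncomputable def uHom : Aff →* Multiplicative Z2 :=
  MonoidHom.mk' (fun x => Multiplicative.ofAdd x.u) (fun _ _ => rfl)

theorem metab_of {A : Type} [Group A] (P : Subgroup A)
    (h1 : ∀ x z : A, x * z * x⁻¹ * z⁻¹ ∈ P) (h2 : ∀ x ∈ P, ∀ z ∈ P, x * z = z * x) :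
    derivedSeries A 2 = ⊥ := by
  have h3 : derivedSeries A 1 ≤ P := by
    rw [derivedSeries_one, commutator_def, Subgroup.commutator_le]
    intro x _ z _
    exact h1 x z
  rw [eq_bot_iff, derivedSeries_succ, Subgroup.commutator_le]
  intro x hx z hz
  rw [Subgroup.mem_bot, commutatorElement_eq_one_iff_mul_comm]
  exact h2 x (h3 hx) z (h3 hz)

theorem Aff_metab : derivedSeries Aff 2 = ⊥ :=
  metab_of uHom.ker (fun x z => by
    rw [MonoidHom.mem_ker, map_mul, map_mul, map_mul, map_inv, map_inv, mul_comm (uHom x),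
      mul_inv_cancel_right, mul_inv_cancel])
    (fun x hx z hz => commute_of_u x z hx hz)

noncomputable def c0 : R := (e (1, 0) - 1) * (e (0, 1) - 1)

theorem c0_ne : c0 ≠ 0 := mul_ne_zero (e_sub_one_ne (by simp)) (e_sub_one_ne (by simp))

theorem c0_dvd (m n : ℤ) : c0 ∣ (e ((m, 0) : Z2) - 1) * (e ((0, n) : Z2) - 1) := by
  have h1 := e_dvd ((1, 0) : Z2) m
  have h2 := e_dvd ((0, 1) : Z2) n
  simp only [Prod.smul_mk, smul_eq_mul, mul_one, mul_zero] at h1 h2
  exact mul_dvd_mul h1 h2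

theorem e_split (u : Z2) : e u = e ((u.1, 0) : Z2) * e ((0, u.2) : Z2) := by
  rw [← e_add]; simp

noncomputable def Gt : Subgroup Aff where
  carrier := {x | c0 ∣ x.y - (e ((x.u.1, 0) : Z2) - 1)}
  one_mem' := by
    change c0 ∣ 0 - (e ((0, 0) : Z2) - 1)
    rw [show ((0, 0) : Z2) = 0 from rfl, e_zero]; simp
  mul_mem' := by
    intro x z hx hz
    change c0 ∣ x.y + e x.u * z.y - (e ((x.u.1 + z.u.1, 0) : Z2) - 1)
    have h1 : e ((x.u.1 + z.u.1, 0) : Z2) = e ((x.u.1, 0) : Z2) * e ((z.u.1, 0) : Z2) := by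
      rw [← e_add]; simp
    have h2 : x.y + e x.u * z.y - (e ((x.u.1 + z.u.1, 0) : Z2) - 1) =
        (x.y - (e ((x.u.1, 0) : Z2) - 1)) + e x.u * (z.y - (e ((z.u.1, 0) : Z2) - 1)) +
          e ((x.u.1, 0) : Z2) * ((e ((z.u.1, 0) : Z2) - 1) * (e ((0, x.u.2) : Z2) - 1)) := by
      rw [h1, e_split x.u]; ring
    rw [h2]
    exact dvd_add (dvd_add hx (Dvd.dvd.mul_left hz _)) (Dvd.dvd.mul_left (c0_dvd _ _) _)
  inv_mem' := by
    intro x hx
    change c0 ∣ -(e (-x.u) * x.y) - (e ((-x.u.1, 0) : Z2) - 1)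
    have h1 : e ((-x.u.1, 0) : Z2) * e ((x.u.1, 0) : Z2) = 1 := by
      rw [← e_add]; simp only [Prod.mk_add_mk, neg_add_cancel, add_zero]; exact e_zero
    have h3 : e (-x.u) = e ((-x.u.1, 0) : Z2) * e ((0, -x.u.2) : Z2) := e_split _
    have h2 : -(e (-x.u) * x.y) - (e ((-x.u.1, 0) : Z2) - 1) =
        -(e (-x.u)) * (x.y - (e ((x.u.1, 0) : Z2) - 1)) +
          (e ((-x.u.1, 0) : Z2) - 1) * (e ((0, -x.u.2) : Z2) - 1) := by
      rw [h3]; linear_combination (-e ((0, -x.u.2) : Z2)) * h1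
    rw [h2]
    exact dvd_add (Dvd.dvd.mul_left hx _) (c0_dvd _ _)

theorem mem_Gt (x : Aff) : x ∈ Gt ↔ c0 ∣ x.y - (e ((x.u.1, 0) : Z2) - 1) := Iff.rfl

abbrev FM := FreeGroup (Fin 2) ⧸ derivedSeries (FreeGroup (Fin 2)) 2

noncomputable def gA : Aff := ⟨e ((1, 0) : Z2) - 1, (1, 0)⟩
noncomputable def gB : Aff := ⟨0, (0, 1)⟩

noncomputable def mu : FM →* Aff :=
  QuotientGroup.lift _ (FreeGroup.lift ![gA, gB]) (by
    intro x hx
    have := map_derivedSeries_le_derivedSeries (FreeGroup.lift ![gA, gB]) 2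
      (Subgroup.mem_map_of_mem _ hx)
    rw [Aff_metab] at this
    exact this)

def ga : FM := QuotientGroup.mk (FreeGroup.of 0)
def gb : FM := QuotientGroup.mk (FreeGroup.of 1)

theorem mu_a : mu ga = gA := FreeGroup.lift_apply_of (f := ![gA, gB]) (x := 0)
theorem mu_b : mu gb = gB := FreeGroup.lift_apply_of (f := ![gA, gB]) (x := 1)

theorem FM_ind (P : Subgroup FM) (ha : ga ∈ P) (hb : gb ∈ P) (g : FM) : g ∈ P := by
  obtain ⟨w, rfl⟩ := QuotientGroup.mk_surjective g
  induction w using FreeGroup.induction_on with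
  | C1 => exact P.one_mem
  | of i => fin_cases i; exacts [ha, hb]
  | inv_of i h => rw [QuotientGroup.mk_inv]; exact P.inv_mem h
  | mul x y hx hy => rw [QuotientGroup.mk_mul]; exact P.mul_mem hx hy

theorem FM_comm (x z : FM) (hx : x ∈ commutator FM) (hz : z ∈ commutator FM) :
    x * z = z * x := by
  have hs : Function.Surjective (QuotientGroup.mk' (derivedSeries (FreeGroup (Fin 2)) 2)) :=
    QuotientGroup.mk'_surjective _
  have h := map_derivedSeries_eq hs 2
  have h2 : derivedSeries FM 2 = ⊥ := by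
    rw [← h, QuotientGroup.map_mk'_self]
  rw [← commutatorElement_eq_one_iff_mul_comm, ← Subgroup.mem_bot, ← h2]
  exact Subgroup.commutator_mem_commutator hx hz

def sg (p : Z2) : FM := ga ^ p.1 * gb ^ p.2

theorem gA_zpow (m : ℤ) : gA ^ m = ⟨e ((m, 0) : Z2) - 1, (m, 0)⟩ := by
  let f : Multiplicative ℤ →* Aff := MonoidHom.mk'
    (fun m => ⟨e ((m.toAdd, 0) : Z2) - 1, (m.toAdd, 0)⟩) (fun a b => by
      refine Aff.ext ?_ ?_
      · have : e (((a * b).toAdd, 0) : Z2) = e ((a.toAdd, 0) : Z2) * e ((b.toAdd, 0) : Z2) := by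
          rw [← e_add]; simp
        simp only [mul_y, this]; ring
      · simp)
  have h := map_zpow f (Multiplicative.ofAdd 1) m
  rw [← ofAdd_zsmul, smul_eq_mul, mul_one] at h
  exact h.symm

theorem gB_zpow (m : ℤ) : gB ^ m = ⟨0, (0, m)⟩ := by
  let f : Multiplicative ℤ →* Aff := MonoidHom.mk'
    (fun m => ⟨0, (0, m.toAdd)⟩) (fun a b => by
      refine Aff.ext ?_ ?_
      · simp
      · simp)
  have h := map_zpow f (Multiplicative.ofAdd 1) m
  rw [← ofAdd_zsmul, smul_eq_mul, mul_one] at h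
  exact h.symm

theorem mu_sg (p : Z2) : mu (sg p) = ⟨e ((p.1, 0) : Z2) - 1, p⟩ := by
  rw [sg, map_mul, map_zpow, map_zpow, mu_a, mu_b, gA_zpow, gB_zpow]
  refine Aff.ext ?_ ?_ <;> simp

theorem mem_comm_iff (g h : FM) : g * h⁻¹ ∈ commutator FM ↔
    Abelianization.of g = Abelianization.of h := by
  rw [← Abelianization.ker_of, MonoidHom.mem_ker, map_mul, map_inv, mul_inv_eq_one]

theorem ab_sg (p q : Z2) : Abelianization.of (sg (p + q)) =
    Abelianization.of (sg p) * Abelianization.of (sg q) := by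
  simp only [sg, map_mul, map_zpow, Prod.fst_add, Prod.snd_add, zpow_add]
  exact mul_mul_mul_comm _ _ _ _

theorem exists_sg (g : FM) : ∃ p, Abelianization.of g = Abelianization.of (sg p) := by
  let P : Subgroup FM :=
    { carrier := {g | ∃ p, Abelianization.of g = Abelianization.of (sg p)}
      one_mem' := ⟨0, by simp [sg]⟩
      mul_mem' := by
        rintro x z ⟨p, hp⟩ ⟨q, hq⟩
        exact ⟨p + q, by rw [map_mul, hp, hq, ab_sg]⟩
      inv_mem' := by
        rintro x ⟨p, hp⟩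
        refine ⟨-p, ?_⟩
        rw [map_inv, hp, inv_eq_iff_mul_eq_one, ← ab_sg]
        simp [sg] }
  exact FM_ind P ⟨(1, 0), by simp [sg]⟩ ⟨(0, 1), by simp [sg]⟩ g

theorem conj_congr (g h x : FM) (hx : x ∈ commutator FM)
    (hgh : Abelianization.of g = Abelianization.of h) : g * x * g⁻¹ = h * x * h⁻¹ := by
  have h1 := (mem_comm_iff g h).2 hgh
  have h2 : h * x * h⁻¹ ∈ commutator FM := Subgroup.Normal.conj_mem inferInstance x hx h
  have h3 := FM_comm _ _ h1 h2
  calc g * x * g⁻¹ = (g * h⁻¹) * (h * x * h⁻¹) * (g * h⁻¹)⁻¹ := by group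
    _ = h * x * h⁻¹ := by rw [h3]; group

def GC : Type := commutator FM

instance : CommGroup GC :=
  { (inferInstance : Group (commutator FM)) with
    mul_comm := fun x z => Subtype.ext (FM_comm _ _ x.2 z.2) }

def val : GC →* FM := (commutator FM).subtype

def cc : FM := gb * ga * gb⁻¹ * ga⁻¹

theorem cc_mem : cc ∈ commutator FM :=
  Subgroup.commutator_mem_commutator (Subgroup.mem_top gb) (Subgroup.mem_top ga)

def cj (p : Z2) : GC := ⟨sg p * cc * (sg p)⁻¹, Subgroup.Normal.conj_mem inferInstance _ cc_mem _⟩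

noncomputable def psi0 : (Z2 →₀ ℤ) →+ Additive GC :=
  Finsupp.liftAddHom fun p => zmultiplesHom _ (Additive.ofMul (cj p))

noncomputable def psi (f : R) : FM := val (psi0 f.coeff).toMul

theorem psi_mem (f : R) : psi f ∈ commutator FM := (psi0 f.coeff).toMul.2

theorem psi_add (f g : R) : psi (f + g) = psi f * psi g := by
  simp [psi]

theorem psi_zero : psi 0 = 1 := by simp [psi]

theorem psi_single (p : Z2) (n : ℤ) :
    psi (AddMonoidAlgebra.single p n) = (sg p * cc * (sg p)⁻¹) ^ n := by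
  simp only [psi, psi0, AddMonoidAlgebra.coeff_single, Finsupp.liftAddHom_apply_single,
    zmultiplesHom_apply, toMul_zsmul, toMul_ofMul, map_zpow]
  rfl

theorem mu_cc : mu cc = ⟨c0, 0⟩ := by
  simp only [cc, map_mul, map_inv, mu_a, mu_b]
  have h1 := e_mul_neg ((1, 0) : Z2)
  refine Aff.ext ?_ ?_
  · simp only [mul_y, mul_u, inv_y, inv_u, gA, gB, c0]
    have : ((0, 1) : Z2) + (1, 0) + -(0, 1) = (1, 0) := by simp
    rw [this]
    linear_combination (1 - e ((1, 0) : Z2)) * h1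
  · simp [gA, gB]

theorem zpow_y (y : R) (n : ℤ) : (⟨y, 0⟩ : Aff) ^ n = ⟨n * y, 0⟩ := by
  let f : Multiplicative ℤ →* Aff := MonoidHom.mk'
    (fun m => ⟨(m.toAdd : R) * y, 0⟩) (fun a b => by
      refine Aff.ext ?_ ?_
      · simp [add_mul]
      · simp)
  have h := map_zpow f (Multiplicative.ofAdd 1) n
  rw [← ofAdd_zsmul, smul_eq_mul, mul_one] at h
  have h1 : f (Multiplicative.ofAdd 1) = ⟨y, 0⟩ := by
    refine Aff.ext ?_ rfl
    change ((1 : ℤ) : R) * y = y
    simp
  rw [← h1, ← h]; rfl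

theorem single_eq (p : Z2) (n : ℤ) : AddMonoidAlgebra.single p n = (n : R) * e p := by
  rw [e, AddMonoidAlgebra.intCast_def, AddMonoidAlgebra.single_mul_single]; simp

theorem mu_psi (f : R) : mu (psi f) = ⟨f * c0, 0⟩ := by
  induction f using AddMonoidAlgebra.induction_linear with
  | zero => rw [psi_zero, map_one, zero_mul]; rfl
  | add f g hf hg =>
    rw [psi_add, map_mul, hf, hg]
    refine Aff.ext ?_ ?_
    · simp [add_mul]
    · simp
  | single p n =>
    rw [psi_single, map_zpow, map_mul, map_mul, map_inv, mu_cc]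
    have : mu (sg p) * ⟨c0, 0⟩ * (mu (sg p))⁻¹ = ⟨e p * c0, 0⟩ := by
      refine Aff.ext ?_ ?_
      · rw [conj_y _ _ rfl, mu_sg]
      · simp
    rw [this, zpow_y, single_eq, mul_assoc]

theorem conj_psi (g : FM) (p : Z2) (hg : Abelianization.of g = Abelianization.of (sg p))
    (f : R) : g * psi f * g⁻¹ = psi (e p * f) := by
  induction f using AddMonoidAlgebra.induction_linear with
  | zero => simp [psi_zero]
  | add f f' hf hf' => rw [mul_add, psi_add, psi_add, ← hf, ← hf']; group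
  | single q n =>
    rw [e, AddMonoidAlgebra.single_mul_single, one_mul, psi_single, psi_single, ← conj_zpow]
    congr 1
    have := conj_congr (g * sg q) (sg (p + q)) cc cc_mem (by rw [map_mul, hg, ab_sg])
    rw [← this]; group

noncomputable def NN : Subgroup FM where
  carrier := Set.range psi
  one_mem' := ⟨0, psi_zero⟩
  mul_mem' := by
    rintro _ _ ⟨f, rfl⟩ ⟨g, rfl⟩
    exact ⟨f + g, psi_add f g⟩
  inv_mem' := by
    rintro _ ⟨f, rfl⟩
    refine ⟨-f, ?_⟩
    rw [eq_inv_iff_mul_eq_one, ← psi_add, neg_add_cancel, psi_zero]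

instance : NN.Normal := ⟨by
  rintro _ ⟨f, rfl⟩ g
  obtain ⟨p, hp⟩ := exists_sg g
  exact ⟨e p * f, (conj_psi g p hp f).symm⟩⟩

theorem comm_le : commutator FM ≤ NN := by
  let q := QuotientGroup.mk' NN
  have h0 : q gb * q ga = q ga * q gb := by
    have : cc ∈ NN := ⟨AddMonoidAlgebra.single 0 1, by rw [psi_single]; simp [sg]⟩
    have h1 : q cc = 1 := (QuotientGroup.eq_one_iff _).2 this
    simp only [cc, map_mul, map_inv] at h1
    calc q gb * q ga = (q gb * q ga * (q gb)⁻¹ * (q ga)⁻¹) * (q ga * q gb) := by group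
      _ = _ := by rw [h1, one_mul]
  have h1 : ∀ x, (q x * q ga = q ga * q x) → (q x * q gb = q gb * q x) →
      ∀ g, q g * q x = q x * q g := by
    intro x ha hb g
    have := FM_ind ((Subgroup.centralizer {q x}).comap q)
      (by simp [Subgroup.mem_centralizer_iff, ha]) (by simp [Subgroup.mem_centralizer_iff, hb]) g
    simp only [Subgroup.mem_comap, Subgroup.mem_centralizer_iff, Set.mem_singleton_iff,
      forall_eq] at this
    exact this.symm
  rw [commutator_def, Subgroup.commutator_le]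
  intro x _ z _
  have h2 := h1 x (h1 ga rfl h0.symm x) (h1 gb h0 rfl x) z
  apply (QuotientGroup.eq_one_iff _).1
  change q _ = 1
  rw [map_commutatorElement, commutatorElement_eq_one_iff_mul_comm, h2]

theorem decomp (g : FM) : ∃ f p, g = psi f * sg p := by
  obtain ⟨p, hp⟩ := exists_sg g
  obtain ⟨f, hf⟩ := comm_le ((mem_comm_iff _ _).2 hp)
  exact ⟨f, p, by rw [hf]; group⟩

theorem mu_decomp (f : R) (p : Z2) :
    mu (psi f * sg p) = ⟨f * c0 + (e ((p.1, 0) : Z2) - 1), p⟩ := by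
  rw [map_mul, mu_psi, mu_sg]
  refine Aff.ext ?_ ?_ <;> simp

theorem mu_inj : Function.Injective mu := by
  rw [injective_iff_map_eq_one]
  intro g hg
  obtain ⟨f, p, rfl⟩ := decomp g
  rw [mu_decomp] at hg
  have h1 : p = 0 := congrArg Aff.u hg
  subst h1
  have h2 : f * c0 + (e ((0 : Z2).1, 0) - 1) = 0 := congrArg Aff.y hg
  rw [show (((0 : Z2).1, 0) : Z2) = 0 from rfl, e_zero, sub_self, add_zero] at h2
  rw [(mul_eq_zero.1 h2).resolve_right c0_ne, psi_zero]
  simp [sg]

theorem mu_range : mu.range = Gt := by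
  ext x
  constructor
  · rintro ⟨g, rfl⟩
    obtain ⟨f, p, rfl⟩ := decomp g
    rw [mu_decomp, mem_Gt]
    simp
  · rintro ⟨f, hf⟩
    refine ⟨psi f * sg x.u, ?_⟩
    rw [mu_decomp]
    refine Aff.ext ?_ rfl
    change f * c0 + _ = _
    linear_combination -hf

end Pool.Agent.H.MP_2b96c2_al
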