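import Pool.Agent.H.MP_2b96c2_al.Aff

set_option autoImplicit false

namespace Pool.Agent.H.MP_2b96c2_al

section
variable {Q Q' : Type} [AddCommGroup Q] [AddCommGroup Q']

noncomputable abbrev md (f : Q →+ Q') : AddMonoidAlgebra ℤ Q →+* AddMonoidAlgebra ℤ Q' :=
  AddMonoidAlgebra.mapDomainRingHom ℤ f

theorem md_e (f : Q →+ Q') (u : Q) : md f (e u) = e (f u) := by
  simp [e]

theorem md_eq_zero (f : Q →+ Q') (w : AddMonoidAlgebra ℤ Q)
    (hinj : Set.InjOn f (w.coeff.support : Set Q)) (h : md f w = 0) : w = 0 := by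
  have h1 : Finsupp.mapDomain f w.coeff = Finsupp.mapDomain f (0 : Q →₀ ℤ) := by
    rw [Finsupp.mapDomain_zero]
    exact congrArg AddMonoidAlgebra.coeff h
  have := Finsupp.mapDomain_injOn _ hinj (by simp) (by simp) h1
  exact AddMonoidAlgebra.coeff_injective this

theorem nzd (l : Q →+ ℤ) (g : Q) (hg : l g ≠ 0) (f : AddMonoidAlgebra ℤ Q)
    (h : (e g - 1) * f = 0) : f = 0 := by
  by_contra hf
  have hne : f.coeff.support.Nonempty := by
    rw [Finsupp.support_nonempty_iff]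
    intro h0
    exact hf (AddMonoidAlgebra.coeff_injective h0)
  obtain ⟨q, hq, hmax⟩ := Finset.exists_max_image _ (fun q => l g * l q) hne
  have h1 : e g * f = f := by linear_combination h
  have h2 : f.coeff (g + q) = f.coeff q := by
    conv_lhs => rw [← h1]
    rw [e, AddMonoidAlgebra.coeff_single_mul_apply]
    simp
  have h3 := hmax (g + q) (by
    rw [Finsupp.mem_support_iff] at hq ⊢
    rwa [h2])
  simp only [map_add, mul_add] at h3
  have := mul_self_pos.2 hg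
  linarith

end

theorem lemK (y : R) (hy : y ≠ 0) (H G : Z2) (l : Z2 →+ ℤ) (hH : l H = 0) (hG : l G ≠ 0)
    (h : ∀ m : ℕ, 1 ≤ m → ∃ z, (e ((m : ℤ) • H) - 1) * z =
      (∏ j ∈ Finset.range m, (e (G - (j : ℤ) • H) - 1)) * y) : False := by
  let M := y.coeff.support.sup (fun s => s.1.natAbs + s.2.natAbs)
  obtain ⟨z, hz⟩ := h (2 * M + 1) (by omega)
  let S := AddSubgroup.zmultiples (((2 * M + 1 : ℕ) : ℤ) • H)
  let q := QuotientAddGroup.mk' S
  let l' : Z2 ⧸ S →+ ℤ := QuotientAddGroup.lift S l (by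
    rintro _ ⟨n, rfl⟩
    rw [AddMonoidHom.mem_ker, map_zsmul, map_zsmul, hH, smul_zero, smul_zero])
  have hl' : ∀ u, l' (q u) = l u := fun _ => rfl
  have h1 := congrArg (md q) hz
  have h2 : q (((2 * M + 1 : ℕ) : ℤ) • H) = 0 :=
    (QuotientAddGroup.eq_zero_iff _).2 (AddSubgroup.mem_zmultiples _)
  rw [map_mul, map_mul, map_sub, md_e, h2, e_zero, map_one, sub_self, zero_mul, map_prod] at h1
  have h3 : ∀ m : ℕ, (∏ j ∈ Finset.range m, md q (e (G - (j : ℤ) • H) - 1)) * md q y = 0 →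
      md q y = 0 := by
    intro m
    induction m with
    | zero => simp
    | succ m ih =>
      intro hm
      rw [Finset.prod_range_succ_comm, mul_assoc, map_sub, md_e, map_one] at hm
      exact ih (nzd l' _ (by rw [hl', map_sub, map_zsmul, hH, smul_zero, sub_zero]; exact hG) _ hm)
  refine hy (md_eq_zero q y ?_ (h3 _ h1.symm))
  intro s hs s' hs' hss
  have b1 : s.1.natAbs + s.2.natAbs ≤ M :=
    Finset.le_sup (f := fun s : Z2 => s.1.natAbs + s.2.natAbs) hs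
  have b2 : s'.1.natAbs + s'.2.natAbs ≤ M :=
    Finset.le_sup (f := fun s : Z2 => s.1.natAbs + s.2.natAbs) hs'
  obtain ⟨n, hn⟩ : -s + s' ∈ S := QuotientAddGroup.eq.1 hss
  have c1 : ((2 * M + 1 : ℕ) : ℤ) ∣ -s.1 + s'.1 :=
    ⟨n * H.1, by have := congrArg Prod.fst hn; simp at this ⊢; linarith⟩
  have c2 : ((2 * M + 1 : ℕ) : ℤ) ∣ -s.2 + s'.2 :=
    ⟨n * H.2, by have := congrArg Prod.snd hn; simp at this ⊢; linarith⟩
  have d1 := Int.eq_zero_of_dvd_of_natAbs_lt_natAbs c1 (by omega)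
  have d2 := Int.eq_zero_of_dvd_of_natAbs_lt_natAbs c2 (by omega)
  exact Prod.ext (by omega) (by omega)

abbrev Z3 := ℤ × ℤ × ℤ
abbrev R3 := AddMonoidAlgebra ℤ Z3

def pr (i : Bool × ℕ) : Z3 →+ Z2 :=
  AddMonoidHom.mk' (fun u => if i.1 then (i.2 * u.1 + u.2.1, u.2.2) else (i.2 * u.2.2 + u.2.1, u.1))
    (fun u v => by
      cases i.1
      · simp only [Bool.false_eq_true, if_false, Prod.fst_add, Prod.snd_add, Prod.mk_add_mk]
        congr 1; ring
      · simp only [if_true, Prod.fst_add, Prod.snd_add, Prod.mk_add_mk]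
        congr 1; ring)

theorem pr_true (k : ℕ) (u : Z3) : pr (true, k) u = (k * u.1 + u.2.1, u.2.2) := rfl
theorem pr_false (k : ℕ) (u : Z3) : pr (false, k) u = (k * u.2.2 + u.2.1, u.1) := rfl

theorem aux_eq (M : ℕ) (a b a' b' : ℤ) (h1 : b.natAbs ≤ M) (h2 : b'.natAbs ≤ M)
    (h : ((2 * M + 1 : ℕ) : ℤ) * a + b = ((2 * M + 1 : ℕ) : ℤ) * a' + b') : a = a' ∧ b = b' := by
  have c1 : ((2 * M + 1 : ℕ) : ℤ) ∣ b' - b := ⟨a - a', by linarith⟩
  have d1 := Int.eq_zero_of_dvd_of_natAbs_lt_natAbs c1 (by omega)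
  have hb : b = b' := by omega
  subst hb
  refine ⟨?_, rfl⟩
  have h3 : ((2 * M + 1 : ℕ) : ℤ) * a = ((2 * M + 1 : ℕ) : ℤ) * a' := by linarith
  exact mul_left_cancel₀ (by omega) h3

theorem sep (b : Bool) (w : R3) (h : ∀ k, md (pr (b, k)) w = 0) : w = 0 := by
  let M := w.coeff.support.sup (fun s => s.2.1.natAbs)
  refine md_eq_zero (pr (b, 2 * M + 1)) w ?_ (h _)
  intro s hs s' hs' hss
  have b1 : s.2.1.natAbs ≤ M := Finset.le_sup (f := fun s : Z3 => s.2.1.natAbs) hs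
  have b2 : s'.2.1.natAbs ≤ M := Finset.le_sup (f := fun s : Z3 => s.2.1.natAbs) hs'
  cases b
  · rw [pr_false, pr_false, Prod.mk.injEq] at hss
    obtain ⟨h1, h2⟩ := aux_eq M _ _ _ _ b1 b2 hss.1
    exact Prod.ext hss.2 (Prod.ext h2 h1)
  · rw [pr_true, pr_true, Prod.mk.injEq] at hss
    obtain ⟨h1, h2⟩ := aux_eq M _ _ _ _ b1 b2 hss.1
    exact Prod.ext h1 (Prod.ext h2 hss.2)

abbrev Big := Multiplicative Z3 × (Bool × ℕ → Aff)

noncomputable def TS : Subgroup Big where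
  carrier := {t | (∀ i, t.2 i ∈ Gt ∧ (t.2 i).u = pr i t.1.toAdd) ∧
    ∀ b : Bool, ∃ s w : R3, ∀ k, md (pr (b, k)) s ≠ 0 ∧
      md (pr (b, k)) s * (t.2 (b, k)).y = md (pr (b, k)) w}
  one_mem' := ⟨fun i => ⟨Gt.one_mem, by simp⟩, fun b => ⟨1, 0, fun k => by simp⟩⟩
  mul_mem' := by
    rintro t t' ⟨h1, h2⟩ ⟨h1', h2'⟩
    refine ⟨fun i => ⟨Gt.mul_mem (h1 i).1 (h1' i).1, ?_⟩, fun b => ?_⟩
    · simp [(h1 i).2, (h1' i).2]
    · obtain ⟨s, w, h⟩ := h2 b
      obtain ⟨s', w', h'⟩ := h2' b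
      refine ⟨s * s', w * s' + e t.1.toAdd * w' * s, fun k => ⟨?_, ?_⟩⟩
      · rw [map_mul]; exact mul_ne_zero (h k).1 (h' k).1
      · simp only [map_mul, map_add, md_e, Prod.snd_mul, Pi.mul_apply, mul_y, (h1 _).2]
        rw [← (h k).2, ← (h' k).2]; ring
  inv_mem' := by
    rintro t ⟨h1, h2⟩
    refine ⟨fun i => ⟨Gt.inv_mem (h1 i).1, ?_⟩, fun b => ?_⟩
    · simp [(h1 i).2]
    · obtain ⟨s, w, h⟩ := h2 b
      refine ⟨s, -(e (-t.1.toAdd) * w), fun k => ⟨(h k).1, ?_⟩⟩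
      simp only [map_mul, map_neg, md_e, Prod.snd_inv, Pi.inv_apply, inv_y, (h1 _).2]
      rw [← (h k).2]; ring

abbrev T : Type := TS

def tu (t : T) : Z3 := t.1.1.toAdd
def co (t : T) (i : Bool × ℕ) : Aff := t.1.2 i

theorem co_u (t : T) (i : Bool × ℕ) : (co t i).u = pr i (tu t) := (t.2.1 i).2
theorem co_mul (t t' : T) (i : Bool × ℕ) : co (t * t') i = co t i * co t' i := rfl
theorem co_inv (t : T) (i : Bool × ℕ) : co t⁻¹ i = (co t i)⁻¹ := rfl
theorem tu_mul (t t' : T) : tu (t * t') = tu t + tu t' := rfl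
theorem tu_inv (t : T) : tu t⁻¹ = -tu t := rfl

theorem T_ext {t t' : T} (h1 : tu t = tu t') (h2 : ∀ i, (co t i).y = (co t' i).y) : t = t' := by
  refine Subtype.ext (Prod.ext h1 (funext fun i => Aff.ext (h2 i) ?_))
  change (co t i).u = (co t' i).u
  rw [co_u, co_u, h1]

theorem tors (t : T) (v : Z3) (hv : v ≠ 0) (h : ∀ i, (e (pr i v) - 1) * (co t i).y = 0)
    (i : Bool × ℕ) : (co t i).y = 0 := by
  obtain ⟨b, k⟩ := i
  obtain ⟨s, w, hs⟩ := t.2.2 b
  have h1 : (e v - 1) * w = 0 := sep b _ fun k => by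
    rw [map_mul, map_sub, md_e, map_one, ← (hs k).2]
    have := h (b, k)
    change (e (pr (b, k) v) - 1) * (t.1.2 (b, k)).y = 0 at this
    linear_combination (md (pr (b, k)) s) * this
  have h2 : w = 0 := (mul_eq_zero.1 h1).resolve_left (e_sub_one_ne hv)
  have h3 := (hs k).2
  rw [h2, map_zero] at h3
  exact (mul_eq_zero.1 h3).resolve_left (hs k).1

theorem commA (t t' : T) (h : tu t = 0) (h' : tu t' = 0) : t * t' = t' * t := by
  refine T_ext (by rw [tu_mul, tu_mul, add_comm]) fun i => ?_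
  rw [co_mul, co_mul, commute_of_u _ _ (by rw [co_u, h, map_zero]) (by rw [co_u, h', map_zero])]

theorem tu_comm (x z : T) : tu (x * z * x⁻¹ * z⁻¹) = 0 := by
  simp only [tu_mul, tu_inv]; abel

theorem co_comm (x z : T) (hz : tu z = 0) (i : Bool × ℕ) :
    (co (x * z * x⁻¹ * z⁻¹) i).y = (e (pr i (tu x)) - 1) * (co z i).y := by
  simp only [co_mul, co_inv]
  rw [comm_y _ _ (by rw [co_u, hz, map_zero]), co_u]

theorem eq_one_of_comm (x z : T) (hx : tu x ≠ 0) (hz : tu z = 0) (h : x * z = z * x) : z = 1 := by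
  refine T_ext hz (tors z (tu x) hx fun i => ?_)
  rw [← co_comm x z hz, h, mul_inv_cancel_right, mul_inv_cancel]
  rfl

noncomputable def tuHom : T →* Multiplicative Z3 := (MonoidHom.fst _ _).comp TS.subtype

theorem T_metab : derivedSeries T 2 = ⊥ :=
  metab_of tuHom.ker (fun x z => tu_comm x z) (fun x hx z hz => commA x z hx hz)

theorem T_ct (t : T) (ht : t ≠ 1) (x z : T) (hx : x * t = t * x) (hz : z * t = t * z) :
    x * z = z * x := by
  by_cases h : tu t = 0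
  · by_cases h1 : tu x = 0
    · by_cases h2 : tu z = 0
      · exact commA x z h1 h2
      · exact absurd (eq_one_of_comm z t h2 h hz) ht
    · exact absurd (eq_one_of_comm x t h1 h hx) ht
  · have hc : Commute t (x * z * x⁻¹ * z⁻¹) := by
      have a1 : Commute t x := hx.symm
      have a2 : Commute t z := hz.symm
      exact ((a1.mul_right a2).mul_right a1.inv_right).mul_right a2.inv_right
    have := eq_one_of_comm t _ h (tu_comm x z) hc
    calc x * z = (x * z * x⁻¹ * z⁻¹) * (z * x) := by group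
      _ = z * x := by rw [this, one_mul]

noncomputable def lf (u : Z3) : T :=
  ⟨(Multiplicative.ofAdd u, fun i => ⟨e (((pr i u).1, 0) : Z2) - 1, pr i u⟩),
    fun i => ⟨by rw [mem_Gt]; simp, rfl⟩, fun b => by
      cases b
      · exact ⟨1, e (0, u.2.1, u.2.2) - 1, fun k => by
          simp only [map_one, one_mul, map_sub, md_e, pr_false]; simp⟩
      · exact ⟨1, e (u.1, u.2.1, 0) - 1, fun k => by
          simp only [map_one, one_mul, map_sub, md_e, pr_true]; simp⟩⟩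

theorem tu_lf (u : Z3) : tu (lf u) = u := rfl

noncomputable def mkA (b : Bool) (z : ℕ → R) (s w : R3)
    (h : ∀ k, md (pr (b, k)) s ≠ 0 ∧ md (pr (b, k)) s * (c0 * z k) = md (pr (b, k)) w) : T :=
  ⟨(1, fun i => ⟨if i.1 = b then c0 * z i.2 else 0, 0⟩),
    fun i => ⟨by
      rw [mem_Gt]
      change c0 ∣ (if i.1 = b then c0 * z i.2 else 0) - (e (0 : Z2) - 1)
      rw [e_zero, sub_self, sub_zero]
      split_ifs
      · exact Dvd.intro _ rfl
      · exact dvd_zero _, by simp⟩, fun b' => by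
      by_cases hb : b' = b
      · subst hb
        exact ⟨s, w, fun k => by simpa using h k⟩
      · exact ⟨1, 0, fun k => by simp [hb]⟩⟩

theorem tu_mkA (b z s w h) : tu (mkA b z s w h) = 0 := rfl
theorem co_mkA (b z s w h) (i : Bool × ℕ) :
    (co (mkA b z s w h) i).y = if i.1 = b then c0 * z i.2 else 0 := rfl

def vg (b : Bool) : Z3 := if b then (1, 0, 0) else (0, 0, 1)
def vl (b : Bool) : Z3 := if b then (0, 0, 1) else (1, 0, 0)
def vh : Z3 := (0, 1, 0)

theorem pr_vg (b : Bool) (k : ℕ) : pr (b, k) (vg b) = ((k : ℤ), 0) := by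
  cases b <;> simp [vg, pr_true, pr_false]
theorem pr_vl (b : Bool) (k : ℕ) : pr (b, k) (vl b) = (0, 1) := by
  cases b <;> simp [vl, pr_true, pr_false]
theorem pr_vh (b : Bool) (k : ℕ) : pr (b, k) vh = (1, 0) := by
  cases b <;> simp [vh, pr_true, pr_false]

theorem md_c0 (b : Bool) (k : ℕ) : md (pr (b, k)) ((e vh - 1) * (e (vl b) - 1)) = c0 := by
  simp only [map_mul, map_sub, map_one, md_e, pr_vh, pr_vl, c0]

noncomputable def t0 (b : Bool) : T :=
  mkA b (fun _ => 1) 1 ((e vh - 1) * (e (vl b) - 1)) (fun k => by rw [md_c0]; simp)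

theorem t0_ne (b : Bool) : t0 b ≠ 1 := by
  intro h
  have := congrArg (fun t => (co t (b, 0)).y) h
  simp only [t0, co_mkA, if_true, mul_one] at this
  exact c0_ne this

noncomputable def chain (b : Bool) : ℕ → T
  | 0 => t0 b
  | j + 1 => lf (vg b - (j : ℤ) • vh) * chain b j * (lf (vg b - (j : ℤ) • vh))⁻¹ * (chain b j)⁻¹

theorem tu_chain (b : Bool) : ∀ j, tu (chain b j) = 0
  | 0 => rfl
  | _ + 1 => tu_comm _ _

theorem co_chain (b : Bool) (i : Bool × ℕ) (m : ℕ) : (co (chain b m) i).y =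
    (∏ j ∈ Finset.range m, (e (pr i (vg b - (j : ℤ) • vh)) - 1)) * (co (t0 b) i).y := by
  induction m with
  | zero => simp [chain]
  | succ m ih =>
    rw [chain, co_comm _ _ (tu_chain b m), ih, tu_lf, Finset.prod_range_succ]; ring

theorem div_chain (b : Bool) (m : ℕ) (hm : 1 ≤ m) (k : ℕ) :
    (e (((m : ℤ), 0) : Z2) - 1) ∣
      ∏ j ∈ Finset.range m, (e (pr (b, k) (vg b - (j : ℤ) • vh)) - 1) := by
  refine Dvd.dvd.trans ?_ (Finset.dvd_prod_of_mem _ (Finset.mem_range.2 (Nat.mod_lt k hm)))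
  have := e_dvd (((m : ℤ), 0) : Z2) ((k / m : ℕ) : ℤ)
  convert this using 3
  rw [map_sub, map_zsmul, pr_vg, pr_vh]
  have h := Nat.div_add_mod k m
  have h' : (m : ℤ) * ((k / m : ℕ) : ℤ) + ((k % m : ℕ) : ℤ) = k := by exact_mod_cast h
  refine Prod.ext ?_ (by simp)
  simp only [Prod.smul_mk, smul_eq_mul, mul_one, mul_zero, Prod.mk_sub_mk]
  linarith

theorem root_chain (b : Bool) (m : ℕ) (hm : 1 ≤ m) : ∃ x : T, tu x = 0 ∧
    lf ((m : ℤ) • vh) * x * (lf ((m : ℤ) • vh))⁻¹ * x⁻¹ = chain b m := by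
  choose z hz using div_chain b m hm
  have hp : ∀ k, pr (b, k) ((m : ℤ) • vh) = ((m : ℤ), 0) := fun k => by
    rw [map_zsmul, pr_vh]; simp
  refine ⟨mkA b z (e ((m : ℤ) • vh) - 1)
    ((∏ j ∈ Finset.range m, (e (vg b - (j : ℤ) • vh) - 1)) * ((e vh - 1) * (e (vl b) - 1)))
    (fun k => ⟨?_, ?_⟩), rfl, ?_⟩
  · rw [map_sub, md_e, map_one, hp]
    exact e_sub_one_ne (by simp; omega)
  · rw [map_mul, md_c0, map_prod]
    simp only [map_sub (md _), md_e, map_one]
    rw [hz, hp]; ring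
  · refine T_ext (by rw [tu_comm, tu_chain]) fun i => ?_
    rw [co_comm _ _ (tu_mkA _ _ _ _ _), co_chain, tu_lf, t0, co_mkA, co_mkA]
    obtain ⟨b', k⟩ := i
    by_cases hb : b' = b
    · subst hb
      simp only [if_true]
      rw [hz, hp]; ring
    · simp [hb]

theorem no_disc (f : T →* Aff) (hf : ∀ x ∈ Gt, ∃ t, f t = x) :
    f (t0 true) = 1 ∨ f (t0 false) = 1 := by
  have hA : ∀ a : T, tu a = 0 → (f a).u = 0 := by
    intro a ha
    by_contra hv
    obtain ⟨t, ht⟩ := hf ⟨c0, 0⟩ (by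
      rw [mem_Gt]
      change c0 ∣ c0 - (e (0 : Z2) - 1)
      simp)
    have h1 : tu (a * t * a⁻¹ * t⁻¹) = 0 := tu_comm _ _
    have h2 := commA a _ ha h1
    have h3 : a * (a * t * a⁻¹ * t⁻¹) * a⁻¹ * (a * t * a⁻¹ * t⁻¹)⁻¹ = 1 := by
      rw [h2, mul_inv_cancel_right, mul_inv_cancel]
    have h4 := congrArg (fun t => (f t).y) h3
    simp only [map_mul f a, map_mul f _ a⁻¹, map_mul f _ (_ * t⁻¹)⁻¹, map_inv, map_one,
      one_y] at h4
    have h5 : f (a * t * a⁻¹ * t⁻¹) = f a * ⟨c0, 0⟩ * (f a)⁻¹ * (⟨c0, 0⟩ : Aff)⁻¹ := by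
      simp only [map_mul, map_inv, ht]
    rw [comm_y _ _ (by rw [h5]; simp), h5, comm_y _ _ rfl] at h4
    exact mul_ne_zero (e_sub_one_ne hv) (mul_ne_zero (e_sub_one_ne hv) c0_ne) h4
  let p : Z3 →+ Z2 := AddMonoidHom.mk' (fun u => (f (lf u)).u) (fun u v => by
    have := hA (lf (u + v) * (lf u * lf v)⁻¹) (by simp [tu_mul, tu_inv, tu_lf])
    simp only [map_mul, map_inv, mul_u, inv_u] at this
    exact add_neg_eq_zero.1 this)
  have hp : ∀ u, (f (lf u)).u = p u := fun _ => rfl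
  have hsurj : ∀ v : Z2, ∃ u, p u = v := by
    intro v
    obtain ⟨t, ht⟩ := hf ⟨e ((v.1, 0) : Z2) - 1, v⟩ (by rw [mem_Gt]; simp)
    refine ⟨tu t, ?_⟩
    have := hA (t * (lf (tu t))⁻¹) (by simp [tu_mul, tu_inv, tu_lf])
    simp only [map_mul, map_inv, mul_u, inv_u, ht, hp] at this
    exact (add_neg_eq_zero.1 this).symm
  have hcomm : ∀ (u : Z3) (a : T), tu a = 0 →
      (f (lf u * a * (lf u)⁻¹ * a⁻¹)).y = (e (p u) - 1) * (f a).y := by
    intro u a ha
    simp only [map_mul, map_inv]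
    rw [comm_y _ _ (hA a ha), hp]
  have key : ∀ b, f (t0 b) ≠ 1 → ∀ l : Z2 →+ ℤ, l (p vh) = 0 → l (p (vg b)) = 0 := by
    intro b hb l hl
    by_contra hg
    have hy : (f (t0 b)).y ≠ 0 := fun h => hb (Aff.ext h (hA _ rfl))
    refine lemK _ hy (p vh) (p (vg b)) l hl hg fun m hm => ?_
    obtain ⟨x, hx, hx'⟩ := root_chain b m hm
    refine ⟨(f x).y, ?_⟩
    have h1 : ∀ m, (f (chain b m)).y =
        (∏ j ∈ Finset.range m, (e (p (vg b) - (j : ℤ) • p vh) - 1)) * (f (t0 b)).y := by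
      intro m
      induction m with
      | zero => simp [chain]
      | succ m ih =>
        rw [chain, hcomm _ _ (tu_chain b m), ih, Finset.prod_range_succ, map_sub, map_zsmul]
        ring
    rw [← h1, ← hx', hcomm _ _ hx, map_zsmul]
  by_contra hcon
  push Not at hcon
  have key2 : ∀ l : Z2 →+ ℤ, l (p vh) = 0 → ∀ v, l v = 0 := by
    intro l hl v
    obtain ⟨u, rfl⟩ := hsurj v
    have h1 := key true hcon.1 l hl
    have h2 := key false hcon.2 l hl
    have hu : u = u.1 • vg true + u.2.1 • vh + u.2.2 • vg false := by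
      simp [vg, vh]
    rw [hu]
    simp only [map_add, map_zsmul, h1, h2, hl, smul_zero, add_zero]
  let l : Z2 →+ ℤ := AddMonoidHom.mk' (fun v => v.1 * (p vh).2 - v.2 * (p vh).1)
    (fun u v => by simp only [Prod.fst_add, Prod.snd_add]; ring)
  have hl : l (p vh) = 0 := by
    change (p vh).1 * (p vh).2 - (p vh).2 * (p vh).1 = 0
    ring
  have h1 := key2 l hl (1, 0)
  have h2 := key2 l hl (0, 1)
  change 1 * (p vh).2 - 0 * (p vh).1 = 0 at h1
  change 0 * (p vh).2 - 1 * (p vh).1 = 0 at h2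
  have h3 := key2 (AddMonoidHom.fst _ _) (by change (p vh).1 = 0; linarith) (1, 0)
  exact one_ne_zero h3

noncomputable def muE : FM ≃* Gt :=
  (MonoidHom.ofInjective mu_inj).trans (MulEquiv.subgroupCongr mu_range)

theorem muE_val (g : FM) : (muE g).1 = mu g := rfl

noncomputable def prj (i : Bool × ℕ) : T →* FM :=
  muE.symm.toMonoidHom.comp
    (MonoidHom.mk' (fun t : T => (⟨co t i, (t.2.1 i).1⟩ : Gt)) (fun _ _ => rfl))

theorem mu_prj (i : Bool × ℕ) (t : T) : mu (prj i t) = co t i := by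
  rw [← muE_val]
  change (muE (muE.symm _)).1 = _
  rw [MulEquiv.apply_symm_apply]
  rfl

theorem prj_surj (i : Bool × ℕ) : Function.Surjective (prj i) := by
  obtain ⟨b, k⟩ := i
  refine fun g => FM_ind (prj (b, k)).range ⟨lf vh, mu_inj ?_⟩ ⟨lf (vl b), mu_inj ?_⟩ g
  · rw [mu_prj, mu_a]
    change (⟨e (((pr (b, k) vh).1, 0) : Z2) - 1, pr (b, k) vh⟩ : Aff) = _
    rw [pr_vh]; rfl
  · rw [mu_prj, mu_b]
    change (⟨e (((pr (b, k) (vl b)).1, 0) : Z2) - 1, pr (b, k) (vl b)⟩ : Aff) = _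
    rw [pr_vl]
    refine Aff.ext ?_ rfl
    change e (0 : Z2) - 1 = 0
    simp

theorem prj_sep (t : T) (h : ∀ i, prj i t = 1) : t = 1 := by
  have h1 : ∀ i, co t i = 1 := fun i => by rw [← mu_prj, h, map_one]
  refine T_ext ?_ fun i => by rw [h1]; rfl
  have a1 := co_u t (true, 0)
  have a2 := co_u t (false, 0)
  rw [h1, one_u] at a1 a2
  rw [pr_true, Prod.ext_iff] at a1
  rw [pr_false, Prod.ext_iff] at a2
  simp only [Prod.fst_zero, Prod.snd_zero, Nat.cast_zero, zero_mul, zero_add] at a1 a2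
  exact Prod.ext a2.2.symm (Prod.ext a1.1.symm a1.2.symm)

theorem main_disc (f : T →* FM) (hf : Function.Surjective f) :
    f (t0 true) = 1 ∨ f (t0 false) = 1 := by
  have := no_disc (mu.comp f) (fun x hx => by
    rw [← mu_range] at hx
    obtain ⟨g, rfl⟩ := hx
    obtain ⟨t, rfl⟩ := hf g
    exact ⟨t, rfl⟩)
  rcases this with h | h
  · exact Or.inl (mu_inj (by rw [map_one]; exact h))
  · exact Or.inr (mu_inj (by rw [map_one]; exact h))

end Pool.Agent.H.MP_2b96c2_al
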